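import Pool.Agent.Q330.PHI.Sharp

/-!
# More than half of a family decided by a formula of less than quadratic size

Let `F` be a family of subsets of `[N]^d` decided by a formula with the gates AND and OR whose leaves are
the literals `z ∈ A`, `z ∉ A` for points `z` on the diagonal, and arbitrary conditions on the part of `A`
outside of the diagonal. Only the leaves of the first kind are counted. If they are `L` then every
family `S ⊆ F` with more than `|F| / 2 + √L / (4 N) * 2^(N^d)` sets is good, even with a set `γ` of one
element. So families `F` of density `δ` are good if `L < 4 δ² N²`. This is sharp: the family of the sets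
with an even number of points on the diagonal is decided by a formula with `N²` leaves (if `N` is a power
of two), has density `1/2`, and it is not good with sets `γ` of one element; for it and `L = N²` the
bound is equal to `|F|`.

The leaves may also be arbitrary conditions; then `L` is the sum over the leaves of the products of the
sensitivities (in the directions of the diagonal) at the sets which satisfy the condition and at those
which do not.

**Proof.** If `S` contains no `A` and `A ∪ {z}` with `z` on the diagonal, then all changes of one point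
on the diagonal lead from `S` to `F \ S` or out of `F`; the latter are boundary edges of `F`, and there
are at most `√L / 2 * 2^(N^d)` of them by the argument of Khrapchenko.
-/

set_option autoImplicit false

namespace Pool.Agent.Results.MP_90b327_co.HalfOfFormulas

open Finset Pool.Agent.Q330.PHI

/-- `cube d γ` is `γ^d`, the set of all `d`-tuples with entries in `γ`. -/
def cube {N : ℕ} (d : ℕ) (γ : Finset (Fin N)) : Finset (Fin d → Fin N) :=
  Fintype.piFinset (fun _ : Fin d => γ)

/-- `S` is good with a set `γ` of one element. -/
def GoodOne {d N : ℕ} (S : Finset (Finset (Fin d → Fin N))) : Prop :=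
  ∃ A ∈ S, ∃ γ : Finset (Fin N), γ.card = 1 ∧ Disjoint A (cube d γ) ∧ A ∪ cube d γ ∈ S

theorem cube_one {d N : ℕ} (a : Fin N) : cube d ({a} : Finset (Fin N)) = {fun _ => a} := by
  ext y
  simp only [cube, Fintype.mem_piFinset, mem_singleton]
  exact ⟨fun h => funext h, fun h i => by rw [h]⟩

/-- (1) If a formula `φ` (gates AND and OR, arbitrary conditions as leaves) decides the family `F` of
subsets of `[N]^d`, then every `S ⊆ F` with `|S| > |F| / 2 + √(cost) / (4 N) * 2^(N^d)` is good, even with
a set `γ` of one element. The cost for the diagonal is the sum of `sens1 u * sens0 u` over the leaves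
`u`; leaves which do not depend on the diagonal cost `0`, and the leaves `z ∈ A` and `z ∉ A` cost at
most `1`.

(2) For all `d ≥ 1` and `N = 2 ^ t` there is such a formula with cost at most `N²` which decides a family
`F` with `|F| = 2^(N^d) / 2` which is not good with sets `γ` of one element. -/
theorem result :
    (∀ d N : ℕ, 1 ≤ d → 1 ≤ N → ∀ (φ : Fml (Fin d → Fin N))
      (F S : Finset (Finset (Fin d → Fin N))), (∀ A, A ∈ F ↔ φ.Val A) → S ⊆ F →
      (F.card : ℝ) / 2 + Real.sqrt (φ.cost (diagonal d N)) / (4 * N) * 2 ^ (N ^ d) < S.card →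
      GoodOne S) ∧
    (∀ (X : Type) [Fintype X] [DecidableEq X] (D : Finset X),
      (∀ u : Finset X → Prop, (∀ A z, z ∈ D → (u (flip A z) ↔ u A)) →
        (Fml.leaf u).cost D = 0) ∧
      (∀ z : X, (Fml.leaf fun A => z ∈ A).cost D ≤ (if z ∈ D then 1 else 0) ∧
        (Fml.leaf fun A => z ∉ A).cost D ≤ if z ∈ D then 1 else 0)) ∧
    ∀ d t : ℕ, 1 ≤ d → ∃ (φ : Fml (Fin d → Fin (2 ^ t)))
      (F : Finset (Finset (Fin d → Fin (2 ^ t)))), (∀ A, A ∈ F ↔ φ.Val A) ∧
      φ.cost (diagonal d (2 ^ t)) ≤ (2 ^ t) ^ 2 ∧ 2 * F.card = 2 ^ ((2 ^ t) ^ d) ∧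
      ¬ GoodOne F := by
  classical
  refine ⟨?_, fun X _ _ D => ⟨fun u hu => cost_free D u hu, fun z => ⟨cost_pos D z, cost_neg D z⟩⟩,
    ?_⟩
  · intro d N hd hN φ F S hF hSF hS
    have hD : (diagonal d N).card = N := card_diagonal hd N
    have hX : Fintype.card (Fin d → Fin N) = N ^ d := by
      rw [Fintype.card_fun, Fintype.card_fin, Fintype.card_fin]
    obtain ⟨A, hA, x, hx, hxA, hins⟩ := half_main (diagonal d N) (by rw [hD]; exact hN) φ hF hSF
      (by rw [hD, hX]; exact hS)
    obtain ⟨a, _, rfl⟩ := mem_image.1 hx
    refine ⟨A, hA, {a}, card_singleton a, ?_, ?_⟩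
    · rw [cube_one]
      exact disjoint_singleton_right.2 hxA
    · rw [cube_one, union_comm, ← insert_eq]
      exact hins
  · intro d t hd
    refine ⟨parity (dpt d t) t 0 false, evens d t, fun A => ?_, ?_, card_evens hd t, ?_⟩
    · rw [mem_evens, (parity_val (dpt d t) A t 0).2]
    · refine (parity_cost _ _ t 0 false).trans (le_of_eq ?_)
      rw [← pow_mul, mul_comm, pow_mul]
      norm_num
    · rintro ⟨A, hA, γ, hγ, hd', hu⟩
      obtain ⟨a, rfl⟩ := card_eq_one.1 hγ
      rw [cube_one] at hd' hu
      rw [union_comm, ← insert_eq] at hu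
      rw [disjoint_singleton_right] at hd'
      rw [mem_evens] at hA hu
      rw [cnt_insert hd A a hd'] at hu
      omega

end Pool.Agent.Results.MP_90b327_co.HalfOfFormulas
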