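import Mathlib
import Pool.Agent.Q330.MHJ.Main

set_option autoImplicit false

namespace Pool.Agent.Results.MP_90b327_co.HalfOfMonotoneCombinations

open Finset

/-- `cube d γ` is `γ^d`, the set of all `d`-tuples with entries in `γ`. -/
def cube {N : ℕ} (d : ℕ) (γ : Finset (Fin N)) : Finset (Fin d → Fin N) :=
  Fintype.piFinset (fun _ : Fin d => γ)

/-- The diagonal of `[N]^d`: the `N` points `(a, …, a)`. -/
def diagonal (d N : ℕ) : Finset (Fin d → Fin N) :=
  univ.image (fun a : Fin N => fun _ : Fin d => a)

/-- Let `U 1, …, U m` be conditions on the subsets of `[N]^d` each of which is preserved when a point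
of the diagonal is added, and let `F` be any combination of them: `A ∈ F` is decided, in any way, by
`A` outside of the diagonal and by which of the conditions hold for `A`. Then every subfamily `S ⊆ F`
with `|S| > |F| / 2 + m / (4 √N) 2^(N^d)` is good, even with a set `γ` of one element. -/
theorem result : ∀ d N m : ℕ, 1 ≤ d → 1 ≤ N →
    ∀ (U : Fin m → Finset (Fin d → Fin N) → Prop)
      (R : Finset (Fin d → Fin N) → (Fin m → Prop) → Prop)
      (F S : Finset (Finset (Fin d → Fin N))),
      (∀ i A, ∀ x ∈ diagonal d N, U i A → U i (insert x A)) →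
      (∀ A, A ∈ F ↔ R (A \ diagonal d N) (fun i => U i A)) → S ⊆ F →
      (F.card : ℝ) / 2 + m / (4 * Real.sqrt N) * (2 : ℝ) ^ (N ^ d) < S.card →
      ∃ A ∈ S, ∃ γ : Finset (Fin N), γ.card = 1 ∧ Disjoint A (cube d γ) ∧ A ∪ cube d γ ∈ S := by
  intro d N m hd hN U R F S hU hF hSF hS
  have hinj : Function.Injective (fun a : Fin N => fun _ : Fin d => a) := fun a b h =>
    congrFun h ⟨0, hd⟩
  have hD : (diagonal d N).card = N := by
    rw [diagonal, card_image_of_injective _ hinj, card_univ, Fintype.card_fin]
  have hX : Fintype.card (Fin d → Fin N) = N ^ d := by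
    rw [Fintype.card_fun, Fintype.card_fin, Fintype.card_fin]
  obtain ⟨A, hA, x, hx, hxA, hins⟩ := Pool.Agent.Q330.MHJ.main (diagonal d N) (by rw [hD]; exact hN)
    U hU R F S hF hSF (by rw [hD, hX]; exact hS)
  obtain ⟨a, _, rfl⟩ := mem_image.1 hx
  have hc : cube d ({a} : Finset (Fin N)) = {fun _ => a} := by
    ext y
    simp only [cube, Fintype.mem_piFinset, mem_singleton]
    exact ⟨fun h => funext h, fun h i => by rw [h]⟩
  refine ⟨A, hA, {a}, card_singleton a, ?_, ?_⟩
  · rw [hc]
    exact disjoint_singleton_right.2 hxA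
  · rw [hc, union_comm, ← insert_eq]
    exact hins

end Pool.Agent.Results.MP_90b327_co.HalfOfMonotoneCombinations
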