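import Pool.Agent.Q330.PHI.Lit

/-!
# The relative form of the conjecture in families decided by small formulas

Let `F` be a family of subsets of `[N]^d` decided by a formula with the gates AND and OR whose leaves
are literals (`z ∈ A` or `z ∉ A`), with `o(N²)` leaves. Then a family `S ⊆ F` which is not good has
density at most `θ_d + o(1)` in `F` (if `F` has positive density), where `θ_1 = 0`, `θ_2 = 0.3223` and
`θ_d = (2^(d-1) - 1)/(2^d - 1)` are the densities above which the conjecture is known for all families
(starting result `VectorThreshold`). If the conjecture holds then the same is true with `θ_d = 0`. The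
leaves with a point with `j` different coordinates may even be `o(N^(2j))`, which is less than all
formulas need for the parity of the number of the points of this kind. The leaves may also be arbitrary
conditions; then the number of the leaves is replaced by the sum over the leaves of the product of the
sensitivity at the sets with the condition and the sensitivity at the sets without the condition. For
instance, a leaf which depends on `w` points costs at most `w²`.

**Proof.** By the argument of Khrapchenko, the pairs of a set in `F` and a set outside of `F` are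
partitioned by the formula into rectangles, and each of them contains few pairs which differ in one
point. So the number of the boundary edges of `F` in the directions of `D` points is at most the square
root of the cost of the formula, times `2^(N^d) / 2`. Families with few boundary edges are treated by
restriction to the subsets of `Y^d`, for a random set `Y ⊆ [N]` with a constant number of elements
(`Pool.Agent.Q330.PHI.relative`).
-/

set_option autoImplicit false

namespace Pool.Agent.Results.MP_90b327_co.RelativeToFormulas

open Pool.Agent.Q330.PHI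

/-- `Good S`: there are `A ∈ S` and a nonempty `γ ⊆ [N]` with `A ∩ γ^d = ∅` and `A ∪ γ^d ∈ S`.
`cls d N j`: the points of `[N]^d` with `j` different coordinates. `edg F z`: the number of the pairs
`A`, `A ∪ {z}`, `z ∉ A`, exactly one of which is in `F`.

(1) If a formula `φ` decides the family `F` of subsets of a finite set `X`, then the sum of `edg F z`
over `z ∈ D` is at most `√(cost) / 2 * 2^|X|`, where the cost of `φ` for `D ⊆ X` is the sum of
`sens1 D u * sens0 D u` over the leaves `u`. Leaves which do not depend on `D` cost `0`, the leaves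
`z ∈ A` and `z ∉ A` cost at most `1`, and `0` if `z ∉ D`.

(2) Let `1 ≤ d`, `1 ≤ m ≤ N`, and suppose that families of subsets of `[m]^d` which are not good have at
most `r` members. If `F` is decided by a formula with cost at most `(λ N^j)²` for the points with `j`
different coordinates, `1 ≤ j ≤ d`, and if `S ⊆ F` is not good, then
`|S| ≤ (r / 2^(m^d)) |F| + r λ d (2m)^d / 2 * 2^(N^d)`.

(3) For all `d ≥ 1` and `δ > threshold d` there is `C` such that for all `N ≥ 1` and `λ ≥ 0`, for each
family `F` decided by a formula as in (2), every `S ⊆ F` with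
`|S| > δ |F| + C (λ + 1/N) 2^(N^d)` is good. -/
theorem result :
    (∀ (X : Type) [Fintype X] [DecidableEq X] (D : Finset X),
      (∀ (φ : Fml X) (F : Finset (Finset X)), (∀ A, A ∈ F ↔ φ.Val A) →
        (∑ z ∈ D, (edg F z : ℝ)) ≤ Real.sqrt (φ.cost D) / 2 * 2 ^ Fintype.card X) ∧
      (∀ u : Finset X → Prop, (∀ A z, z ∈ D → (u (flip A z) ↔ u A)) →
        (Fml.leaf u).cost D = 0) ∧
      (∀ z : X, (Fml.leaf fun A => z ∈ A).cost D ≤ (if z ∈ D then 1 else 0) ∧
        (Fml.leaf fun A => z ∉ A).cost D ≤ if z ∈ D then 1 else 0)) ∧
    (∀ d N m r : ℕ, 1 ≤ d → 1 ≤ m → m ≤ N →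
      (∀ B : Finset (Finset (Fin d → Fin m)), ¬ Good B → B.card ≤ r) →
      ∀ (φ : Fml (Fin d → Fin N)) (lam : ℝ), 0 ≤ lam →
      (∀ j, 1 ≤ j → j ≤ d → (φ.cost (cls d N j) : ℝ) ≤ (lam * (N : ℝ) ^ j) ^ 2) →
      ∀ F S : Finset (Finset (Fin d → Fin N)), (∀ A, A ∈ F ↔ φ.Val A) → S ⊆ F → ¬ Good S →
        (S.card : ℝ) ≤ r / 2 ^ (m ^ d) * F.card +
          r * (lam * (d * (2 * m) ^ d / 2)) * 2 ^ (N ^ d)) ∧
    ∀ d : ℕ, 1 ≤ d → ∀ δ : ℝ, threshold d < δ → ∃ C : ℝ, ∀ N : ℕ, 1 ≤ N →
      ∀ (φ : Fml (Fin d → Fin N)) (lam : ℝ), 0 ≤ lam →
      (∀ j, 1 ≤ j → j ≤ d → (φ.cost (cls d N j) : ℝ) ≤ (lam * (N : ℝ) ^ j) ^ 2) →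
      ∀ F S : Finset (Finset (Fin d → Fin N)), (∀ A, A ∈ F ↔ φ.Val A) → S ⊆ F →
        δ * F.card + C * (lam + 1 / N) * 2 ^ (N ^ d) < S.card → Good S := by
  refine ⟨fun X _ _ D => ⟨fun φ F hF => edg_formula D φ F hF, fun u hu => cost_free D u hu,
    fun z => ⟨cost_pos D z, cost_neg D z⟩⟩, ?_, form_known⟩
  intro d N m r hd hm hmN hr φ lam hlam hφ F S hF hSF hS
  exact form_main hd hm hmN hr φ hlam hφ hF hSF hS

end Pool.Agent.Results.MP_90b327_co.RelativeToFormulas
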