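import Pool.Agent.Q330.PHI.MonoMain

/-!
# The relative form of the conjecture in combinations of monotone families

Let `U_1, …, U_k` be monotone (increasing) families of subsets of `[N]^d`, and let `F` be any Boolean
combination of them. If `k = o(√N)` then a family `S ⊆ F` which is not good has density at most
`θ_d + o(1)` in `F`, where `θ_1 = 0`, `θ_2 = 0.3223` and `θ_d = (2^(d-1) - 1)/(2^d - 1)` are the
densities above which the conjecture is known for all families (starting result `VectorThreshold`).
If the conjecture holds then the same is true with `θ_d = 0`.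

More generally, this holds for all families `F` (of positive density) with few boundary edges: for each
`j ≤ d`, the average influence on `F` of the points of `[N]^d` with `j` different coordinates has to
be `o(1)`.

**Proof.** Take a random set `Y ⊆ [N]` with `m` elements, `m` a large constant, one in each of `m`
intervals. Fix the part of the set `A` outside of `Y^d`. The part of `S` which remains is a family of
subsets of `Y^d` which is not good, so it has at most `r` members, `r` the maximum for `[m]^d`. And
the part of `F` is empty or consists of all subsets of `Y^d`, unless there is a boundary edge of `F`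
in the direction of a point of `Y^d`. A point with `j` different coordinates is in `Y^d` with
probability at most `⌊N/m⌋^(-j)`, and a monotone family has at most `√D / 2 * 2^(N^d)` boundary
edges in the directions of `D` points.
-/

set_option autoImplicit false

namespace Pool.Agent.Results.MP_90b327_co.RelativeToMonotone

open Pool.Agent.Q330.PHI

/-- `Good S`: there are `A ∈ S` and a nonempty `γ ⊆ [N]` with `A ∩ γ^d = ∅` and `A ∪ γ^d ∈ S`.

(1) Let `1 ≤ d` and `1 ≤ m ≤ N`, and suppose that families of subsets of `[m]^d` which are not good have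
at most `r` members. If `S ⊆ F` is not good then
`|S| ≤ (r / 2^(m^d)) |F| + r ∑_z edg F z / ⌊N/m⌋^(wid z)`, where `edg F z` is the number of the
pairs `A`, `A ∪ {z}`, `z ∉ A`, exactly one of which is in `F`, and `wid z` is the number of different
coordinates of `z`.

(2) If `F` is a Boolean combination of `k` monotone families then the second term is at most
`r k d^(d+1) (2m)^d / (2 √N) * 2^(N^d)`.

(3) For all `d ≥ 1` and `δ > threshold d` there is `C` such that for all `N ≥ 1` and `k`, for each
Boolean combination `F` of `k` monotone families of subsets of `[N]^d`, every `S ⊆ F` with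
`|S| > δ |F| + C (k + 1) / √N * 2^(N^d)` is good. -/
theorem result :
    (∀ d N m r : ℕ, 1 ≤ d → 1 ≤ m → m ≤ N →
      (∀ B : Finset (Finset (Fin d → Fin m)), ¬ Good B → B.card ≤ r) →
      ∀ F S : Finset (Finset (Fin d → Fin N)), S ⊆ F → ¬ Good S →
        (S.card : ℝ) ≤ r / 2 ^ (m ^ d) * F.card +
          r * ∑ z, (edg F z : ℝ) / ((N / m : ℕ) : ℝ) ^ wid z) ∧
    (∀ d N m r k : ℕ, 1 ≤ d → 1 ≤ m → m ≤ N →
      (∀ B : Finset (Finset (Fin d → Fin m)), ¬ Good B → B.card ≤ r) →
      ∀ U : Fin k → Finset (Fin d → Fin N) → Prop, (∀ i A x, U i A → U i (insert x A)) →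
      ∀ (R : (Fin k → Prop) → Prop) (F S : Finset (Finset (Fin d → Fin N))),
        (∀ A, A ∈ F ↔ R fun i => U i A) → S ⊆ F → ¬ Good S →
        (S.card : ℝ) ≤ r / 2 ^ (m ^ d) * F.card +
          r * (k * ((d : ℝ) ^ (d + 1) * (2 * m) ^ d / 2 / Real.sqrt N)) * 2 ^ (N ^ d)) ∧
    ∀ d : ℕ, 1 ≤ d → ∀ δ : ℝ, threshold d < δ → ∃ C : ℝ, ∀ N k : ℕ, 1 ≤ N →
      ∀ U : Fin k → Finset (Fin d → Fin N) → Prop, (∀ i A x, U i A → U i (insert x A)) →
      ∀ (R : (Fin k → Prop) → Prop) (F S : Finset (Finset (Fin d → Fin N))),
        (∀ A, A ∈ F ↔ R fun i => U i A) → S ⊆ F →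
        δ * F.card + C * (k + 1) / Real.sqrt N * 2 ^ (N ^ d) < S.card → Good S := by
  refine ⟨?_, ?_, mono_known⟩
  · intro d N m r _ hm hmN hr F S hSF hS
    exact relative (n := N / m) (Nat.mul_div_le N m) ((Nat.one_le_div_iff (by omega)).2 hmN)
      hr hSF hS
  · intro d N m r k hd hm hmN hr U hU R F S hF hSF hS
    exact mono_main hd hm hmN hr U hU R hF hSF hS

end Pool.Agent.Results.MP_90b327_co.RelativeToMonotone
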